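import Pool.Agent.Helper38.FRX.Goals

set_option autoImplicit false

/-!
# FRX-CYC: a core contains a cycle
-/

namespace Pool.Agent.Helper40.FRX

open SimpleGraph

theorem cycle_aux {W : Type} [Finite W] (H : SimpleGraph W) [Nonempty W]
    (hd : ∀ x : W, ∃ y z : W, y ≠ z ∧ H.Adj x y ∧ H.Adj x z) : ¬ H.IsAcyclic := by
  classical
  intro hac
  obtain ⟨u, v, p, hp, hmax⟩ := Walk.exists_isPath_forall_isPath_length_le_length H
  obtain ⟨y, z, hyz, hy, hz⟩ := hd u
  have key : ∀ w, H.Adj u w → w = p.snd := by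
    intro w hw
    have hs : w ∈ p.support := by
      by_contra hns
      have h1 : (Walk.cons hw.symm p).IsPath := hp.cons hns
      have h2 := hmax _ _ _ h1
      rw [Walk.length_cons] at h2
      omega
    exact hac.eq_snd_of_adj_start hp hw hs
  exact hyz ((key y hy).trans (key z hz).symm)

theorem cyc : Pool.Agent.Helper38.FRX.CycStmt := by
  intro V _ _ G _ K S hK hdeg hKS hac
  classical
  obtain ⟨x0, hx0⟩ := hK
  haveI : Nonempty (K : Set V) := ⟨⟨x0, hx0⟩⟩
  have hd : ∀ x : (K : Set V), ∃ y z : (K : Set V), y ≠ z ∧ (G.induce (K : Set V)).Adj x y ∧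
      (G.induce (K : Set V)).Adj x z := by
    intro x
    have h1 := hdeg x.1 x.2
    obtain ⟨y, hy, z, hz, hne⟩ := Finset.one_lt_card.mp (show 1 < _ from h1)
    rw [Finset.mem_filter] at hy hz
    refine ⟨⟨y, hy.1⟩, ⟨z, hz.1⟩, ?_, ?_, ?_⟩
    · intro h; exact hne (congrArg Subtype.val h)
    · exact hy.2
    · exact hz.2
  refine cycle_aux (G.induce (K : Set V)) hd ?_
  have hKS' : (K : Set V) ⊆ (S : Set V) := Finset.coe_subset.2 hKS
  let f : G.induce (K : Set V) →g G.induce (S : Set V) :=
    { toFun := fun x => ⟨x.1, hKS' x.2⟩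
      map_rel' := fun {a b} h => h }
  have hf : Function.Injective f := by
    intro a b h
    exact Subtype.ext (congrArg (fun y : (S : Set V) => (y : V)) h)
  exact hac.comap f hf

end Pool.Agent.Helper40.FRX
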